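import Pool.Agent.AFJ.Defs
import Pool.Agent.LE.StmtsQF

/-!
# One block update of the flow: jets and bounds at a point (block D3 of AND2B, MP_1906c1_mp)

MAIN IDEA. Let `Λ` bound `∑_{c ∈ b} K_xc²`, `K = |G|²`, and let `κv` be the smallest absorption in the
running block `b`. The form `E(f) = (1/2) ∑_{x,y ∈ A} κ_x K_xy κ_y (f_x - f_y)²` of the network of the
nodes `A` (running and frozen ones, every node with its own absorption) has the EXACT drift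
`L E = - E diag(1_b κ⁻²) E + e`, `e` = a Laplacian form with `|e(f)| ≤ C max_b |μ| / κv * E(f)`, and the
noise `E_c`, `c ∈ b`, is small relative to `E` as an operator: the white part is at most
`8 (ρ Λ / κv)^{1/2} E(f)`, the part seen by a positive matrix `S` with small diagonal `S0` is at most
`8 ρ S0 / κv * E(f)`. No assumption on the frozen nodes or on the dead sites is used. Everything
follows from `(E_c f)_x = - 2 κ_x Re (G_xc β_xc)`, `|β_xc|² ≤ ρ_c D_x(f)`, `∑_c κ_c |β_xc|² ≤ D_x(f)`.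
-/

set_option autoImplicit false

open scoped BigOperators Matrix

noncomputable section

namespace Pool.Agent.AFJ

open Pool.Agent.LE.QF

/-! ### A. Jets -/

/-- BGJ: the resolvent of a block update. Proof: let `M r = H + diag (pt r)`. (1) `Im (pt r x) = - kp`;
if `M q u = v` then `Im ⟨u, M u⟩ = - ∑ kp |u|²`, so `M r` is injective for `r` near `q` (`kp > 0` near
`q.1`, a finite number of linear functions of the time) and `IsUnit (M r).det`. (2) `M` is a matrix of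
affine functions of `r`: `HM M q (M q) (fun c => E_c) (diag (1_b mb))` (`JalStmt`: constants, coordinates,
the time `r.1`), `JmaStmt` (inverse): `∂_c G = - G E_c G = gG G c`, `LL G = - G diag (1_b mb) G +
∑_{c ∈ b} G E_c G E_c G`, and `(G E_c G E_c G) x y = G x c G c c G c y`: together `GD G (mub ..)`.
(3) `G` is symmetric (`M` is). (4) Ward: `G - G^* = G (M^* - M) G^* = 2 i G diag(kp) G^*`, and
`(G - G^*) x z = 2 i Im (G x z)` by symmetry. (5) the norm: `u = G (κ v)`, `M u = κ v`,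
`∑ κ |u|² = - Im ⟨u, M u⟩ ≤ ∑ κ |u| |v|`, Cauchy-Schwarz. -/
def BgjStmt : Prop :=
  JalStmt → JmaStmt → ∀ (X : Type) [Fintype X] [DecidableEq X] (D : Blk X) (q : ℝ × (D.b → ℝ)),
    (∀ x y, D.H x y = D.H y x) → (∀ x, 0 < D.kp q.1 x) →
      BJ q D.G D.kp (D.G q) (D.kp q.1) D.mb ∧ Net (D.G q) (D.kp q.1)

/-- BKJ: jets of the squares, of the absolute squares, of the entries. Proof: `JalStmt`, as `JtbStmt`;
the second order terms are `∑_{c ∈ b} (G x c G c y)²` and `∑_{c ∈ b} |G x c G c y|²` (the coordinates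
of the noise are the elements of `b`; `Finset.sum_coe_sort`). -/
def BkjStmt : Prop :=
  JalStmt → ∀ (X : Type) [Fintype X] [DecidableEq X] (b : Finset X) (q : ℝ × (b → ℝ))
    (Gm : ℝ × (b → ℝ) → Matrix X X ℂ) (kf : ℝ → X → ℝ) (G : Matrix X X ℂ) (κ : X → ℝ)
    (mb : X → ℂ), BJ q Gm kf G κ mb →
    HM (fun r => BB (Gm r)) q (BB G) (fun c => dB G (c : X))
      (BB G * Matrix.diagonal (fun x => ((ind b x : ℝ) : ℂ)) * BB G + EB G (mub G mb b)) ∧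
    HM (fun r => KK (Gm r)) q (KK G) (fun c => dK G (c : X))
      (KK G * Matrix.diagonal (ind b) * KK G + EK G (mub G mb b)) ∧
    ∀ x y, HJ (fun r => Gm r x y) q (G x y) (fun c => -(G x c * G c y)) (GD G (mub G mb b) x y)

/-- BEJ: the jet of the form of the network. Proof: `BkjStmt` and `JalStmt`: the entry `(x, y)`,
`x, y ∈ A`, of the conductances is `kf x * kf y * KK x y`, with the derivatives `κ_x κ_y dK G c x y` and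
`LL = κ_x κ_y ((K 1_b K) x y + EK x y) - (1_b(x) g_x κ_y + κ_x 1_b(y) g_y) K x y`, `g = Im mb` (`kf` depends on
the time only). `Dl` is linear, its entries are finite sums. Now the identity
`Dl (κ (K 1_b K) κ - (1_b g κ + κ 1_b g) K) = - EE diag(1_b κ⁻²) EE + Dl (the first part of ee)`:
all matrices have zero row sums (`EE *ᵥ 1 = 0`, `EE` symmetric), are zero outside of `A × A`
(`b ⊆ A`), so it suffices to compare the entries `x ≠ y` in `A`: `EE = diag (κ ρ) - κ K κ` on `A`, so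
`(EE diag(1_b κ⁻²) EE) x y = (κ K 1_b K κ) x y - 1_b(x) ρ_x K x y κ_y - κ_x K x y ρ_y 1_b(y)`
(the sum over `c ∈ b ⊆ A`; the diagonal entries `κ_c ρ_c - κ_c² K c c` of `EE` are multiplied with
`- κ K κ`: the terms with `K c c` complete the sum). -/
def BejStmt : Prop :=
  JalStmt → BkjStmt → ∀ (X : Type) [Fintype X] [DecidableEq X] (b A : Finset X) (q : ℝ × (b → ℝ))
    (Gm : ℝ × (b → ℝ) → Matrix X X ℂ) (kf : ℝ → X → ℝ) (G : Matrix X X ℂ) (κ : X → ℝ)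
    (mb : X → ℂ), BJ q Gm kf G κ mb → b ⊆ A → (∀ x, κ x ≠ 0) →
    HM (fun r => EE (Gm r) (kf r.1) A) q (EE G κ A) (fun c => Ec G κ A (c : X))
      (-(EE G κ A * Matrix.diagonal (fun x => ind b x / κ x ^ 2) * EE G κ A) +
        Dl (ee G κ (fun x => (mb x).im) (mub G mb b) A b))

/-- LAJ: the jet of `Λ_x = ∑_{y ∈ R} K_xy²`, with bounds of the gradient and of the drift. Proof:
`BkjStmt`, `JalStmt`: `∂_c Λ = 2 ∑_{y ∈ R} K_xy dK_c(x, y)`, `LL Λ = ∑_{y ∈ R} (2 K_xy ((K 1_b K)_xy + EK_xy) +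
∑_{c ∈ b} dK_c(x, y)²)`. `|dK_c(x, y)| ≤ 2 |G_xy| |G_xc| |G_cy|`, so `dK_c² ≤ 4 K_xy K_xc K_cy`: the drift is at
most `6 ∑_{y ∈ R, c ∈ b} K_xy K_xc K_cy + 2 ∑_{y ∈ R} K_xy EK_xy`. The gradient: `(∂_c Λ)² ≤ 16 K_xc
(∑_{y ∈ R} K_xy |G_xy| |G_cy|)² ≤ 16 K_xc Λ_x ∑_{y ∈ R} K_xy K_cy`. -/
def LajStmt : Prop :=
  JalStmt → BkjStmt → ∀ (X : Type) [Fintype X] [DecidableEq X] (b R : Finset X) (q : ℝ × (b → ℝ))
    (Gm : ℝ × (b → ℝ) → Matrix X X ℂ) (kf : ℝ → X → ℝ) (G : Matrix X X ℂ) (κ : X → ℝ)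
    (mb : X → ℂ) (x : X), BJ q Gm kf G κ mb →
    ∃ (g' : b → ℝ) (l' : ℝ), HJ (fun r => LaR (Gm r) R x) q (LaR G R x) g' l' ∧
      l' ≤ 6 * (∑ y ∈ R, ∑ c ∈ b, KK G x y * KK G x c * KK G c y) +
        2 * ∑ y ∈ R, KK G x y * EK G (mub G mb b) x y ∧
      ∑ c, g' c ^ 2 ≤ 16 * LaR G R x * ∑ y ∈ R, ∑ c ∈ b, KK G x y * KK G x c * KK G c y

/-! ### B. Bounds at a point: the noise of the form -/

/-- BET: the formula for the noise and the bounds for `β`. Proof: (1) `Ec` is a Laplacian: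
`(Ec f) x = ∑_{y ∈ A} κ_x κ_y dK_c(x, y) (f_x - f_y)` for `x ∈ A`, `0` otherwise, and
`dK_c(x, y) = - 2 Re (conj (G x y) G x c G c y)` (`G` symmetric). (2) `∑_{x ∈ A} κ_x G_xc β_xc = 0`: the
double sum over `x, y ∈ A` of `κ_x κ_y conj(G_xy) G_xc G_cy (f_x - f_y)` is antisymmetric. (3)
Cauchy-Schwarz with the weights `κ_y`. (4) `hn` with `v y = conj (G x y) (f x - f y)` for `y ∈ A`, `0`
otherwise; drop the `c` outside of `b`. (5) `qf (EE) f = (1/2) ∑_{x ∈ A} κ_x D_x(f)`. -/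
def BetStmt : Prop :=
  ∀ (X : Type) [Fintype X] [DecidableEq X] (G : Matrix X X ℂ) (κ : X → ℝ) (A : Finset X)
    (f : X → ℝ), Net G κ →
    (∀ c x, x ∈ A → (Ec G κ A c *ᵥ f) x = -(2 * κ x * (G x c * bet G κ A f x c).re)) ∧
    (∀ c x, x ∉ A → (Ec G κ A c *ᵥ f) x = 0) ∧
    (∀ c, ∑ x ∈ A, (κ x : ℂ) * (G x c * bet G κ A f x c) = 0) ∧
    (∀ x c, ‖bet G κ A f x c‖ ^ 2 ≤ rho G κ A c * DD G κ A f x) ∧
    (∀ (x : X) (b : Finset X), ∑ c ∈ b, κ c * ‖bet G κ A f x c‖ ^ 2 ≤ DD G κ A f x) ∧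
    qf (EE G κ A) f = (1 / 2) * ∑ x ∈ A, κ x * DD G κ A f x

/-- NBW: the white part of the noise. Proof: `BetStmt`: `(Ec f)_x² / κ_x ≤ 4 κ_x K_xc |β_xc|²`, and for fixed
`x`: `∑_{c ∈ b} K_xc |β_xc|² ≤ (∑ K_xc²)^{1/2} (∑ |β_xc|⁴)^{1/2} ≤ Λ^{1/2} (ρ D_x · D_x / κv)^{1/2}`. -/
def NbwStmt : Prop :=
  BetStmt → ∀ (X : Type) [Fintype X] [DecidableEq X] (G : Matrix X X ℂ) (κ : X → ℝ)
    (A b : Finset X) (f : X → ℝ) (κv Λ r : ℝ), Net G κ → 0 < κv → 0 ≤ Λ → 0 ≤ r →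
    (∀ c ∈ b, κv ≤ κ c) → (∀ c ∈ b, rho G κ A c ≤ r) →
    (∀ x ∈ A, ∑ c ∈ b, KK G x c ^ 2 ≤ Λ) →
      ∑ c ∈ b, ∑ x ∈ A, (Ec G κ A c *ᵥ f) x ^ 2 / κ x ≤
        8 * Real.sqrt (r * Λ / κv) * qf (EE G κ A) f

/-- NBS: the smooth part of the noise. Proof: with `j = Ec f` (zero outside of `A`): `qf S j ≤
(∑_x |j_x| (S x x)^{1/2})² ≤ S0 (∑_{x ∈ A} |j_x|)²` (`|S x y| ≤ (S x x S y y)^{1/2}`, `S ≥ 0`), and
`∑_{x ∈ A} |j_x| ≤ 2 ∑ κ_x |G_xc| |β_xc| ≤ 2 (ρ_c)^{1/2} (∑_{x ∈ A} κ_x |β_xc|²)^{1/2}`; then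
`∑_{c ∈ b} ∑_{x ∈ A} κ_x |β_xc|² ≤ (1/κv) ∑_{x ∈ A} κ_x D_x = (2/κv) qf EE f`. -/
def NbsStmt : Prop :=
  BetStmt → ∀ (X : Type) [Fintype X] [DecidableEq X] (G : Matrix X X ℂ) (κ : X → ℝ)
    (A b : Finset X) (f : X → ℝ) (S : Matrix X X ℝ) (κv S0 r : ℝ), Net G κ → 0 < κv → 0 ≤ r →
    (∀ c ∈ b, κv ≤ κ c) → (∀ c ∈ b, rho G κ A c ≤ r) →
    (∀ x y, S x y = S y x) → (∀ h, 0 ≤ qf S h) → (∀ x ∈ A, S x x ≤ S0) →
      ∑ c ∈ b, qf S (Ec G κ A c *ᵥ f) ≤ 8 * r * S0 / κv * qf (EE G κ A) f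

/-- DRE: the error term of the drift. Proof: `qf (Dl c) f = (1/2) ∑ c_xy (f_x - f_y)²` for symmetric `c`.
First part: `∑_{x ∈ b} (ρ_x - g_x) D_x(f)`, at most `δ ∑_{x ∈ b} D_x ≤ (δ/κv) ∑_{x ∈ A} κ_x D_x`. Second part:
`(1/2) ∑_{x, y ∈ A} κ_x κ_y EK (f_x - f_y)² = Re ∑_{c ∈ b} μ_c ∑_{x, y ∈ A} κ_x κ_y conj(G_xy) G_xc G_cy (f_x - f_y)²`,
and the inner double sum is `2 ∑_{x ∈ A} κ_x G_xc (f_x - f_c) β_xc` (write `f_x - f_y = (f_x - f_c) - (f_y - f_c)`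
in one factor, symmetry): at most `2 D_c(f)^{1/2} (∑_{x ∈ A} κ_x |β_xc|²)^{1/2}`; Cauchy-Schwarz over `c`:
`2 μs (∑_{c ∈ b} D_c)^{1/2} (∑_c ∑_x κ_x |β_xc|²)^{1/2} ≤ 2 μs (2 E/κv)^{1/2} (2 E/κv)^{1/2}`, with
`E = qf EE f`. -/
def DreStmt : Prop :=
  BetStmt → ∀ (X : Type) [Fintype X] [DecidableEq X] (G : Matrix X X ℂ) (κ g : X → ℝ)
    (μ : X → ℂ) (A b : Finset X) (f : X → ℝ) (κv μs δ : ℝ), Net G κ → 0 < κv → b ⊆ A →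
    (∀ c ∈ b, κv ≤ κ c) → (∀ x ∈ b, |rho G κ A x - g x| ≤ δ) → 0 ≤ δ → 0 ≤ μs →
    (∀ c ∈ b, ‖μ c‖ ≤ μs) → (∀ c, c ∉ b → μ c = 0) →
      |qf (Dl (ee G κ g μ A b)) f| ≤ (2 * δ + 4 * μs) / κv * qf (EE G κ A) f

/-! ### C. Bounds at a point: entries -/

/-- ENB: rows of `G` and of `G μ G`. Proof: (1) `hw` with `z = x`. (2) `|∑_c G_xc μ_c G_cy| ≤
μs (∑_{c ∈ b} K_xc)^{1/2} (∑_{c ∈ b} K_cy)^{1/2}`. (3) `hn` with `v c = μ_c G_xc / κ_c` on `b` (`GD G μ x y =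
∑_c G_yc (μ_c G_xc)`). (4) the square of (2) times (3). (5) `|EK| ≤ 2 |G_xy| |u_y|` and Hoelder with the
exponents `4/3`, `4` (twice Cauchy-Schwarz: `∑ K^{3/2} |u| = ∑ K · K^{1/2} |u|`, `∑ K |u|² ≤
(∑ K²)^{1/2} (∑ |u|⁴)^{1/2}`). (6) `|G_xc G_cy|² = K_xc K_yc`, Cauchy-Schwarz. -/
def EnbStmt : Prop :=
  ∀ (X : Type) [Fintype X] [DecidableEq X] (G : Matrix X X ℂ) (κ : X → ℝ) (μ : X → ℂ)
    (b R T : Finset X) (κv κR μs r : ℝ), Net G κ → 0 < κv → 0 < κR → 0 ≤ μs → 0 ≤ r → R ⊆ T →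
    (∀ c ∈ b, κv ≤ κ c) → (∀ c ∈ R, κR ≤ κ c) → (∀ c ∈ b, ‖μ c‖ ≤ μs) → (∀ c, c ∉ b → μ c = 0) →
    (∀ x ∈ T, (∑ c ∈ b, κ c * KK G x c) ≤ r) →
    (∀ x, ∑ y, κ y * KK G x y = (G x x).im) ∧
    (∀ x ∈ T, ∀ y ∈ T, ‖GD G μ x y‖ ≤ μs * r / κv) ∧
    (∀ x ∈ T, ∑ y, κ y * ‖GD G μ x y‖ ^ 2 ≤ μs ^ 2 * r / κv ^ 2) ∧
    (∀ x ∈ T, ∑ y ∈ R, ‖GD G μ x y‖ ^ 4 ≤ (μs * r / κv) ^ 2 * (μs ^ 2 * r / (κv ^ 2 * κR))) ∧
    (∀ x, (∑ y ∈ R, KK G x y * EK G μ x y) ^ 4 ≤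
      16 * LaR G R x ^ 3 * ∑ y ∈ R, ‖GD G μ x y‖ ^ 4) ∧
    ∀ x y, ∑ c ∈ b, ‖G x c * G c y‖ ^ 2 ≤ Real.sqrt (LaR G b x) * Real.sqrt (LaR G b y)

/-- LAT: the triple sum in the drift of `Λ_x`. Proof: the terms are nonnegative and `b ⊆ R`, so the sum
is at most `qf K u` with `u = K_x. 1_R`; by the form bound it is at most `a ∑ u² + qf S u`, `∑ u² = Λ_x`,
`qf S u ≤ S0 (∑_{y ∈ R} K_xy)² ≤ S0 (r / κR)²` (`∑_{y ∈ R} κ_y K_xy ≤ r`). -/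
def LatStmt : Prop :=
  ∀ (X : Type) [Fintype X] [DecidableEq X] (G : Matrix X X ℂ) (κ : X → ℝ)
    (b R : Finset X) (S : Matrix X X ℝ) (x : X) (κR a r S0 : ℝ), Net G κ → b ⊆ R → 0 < κR →
    (∀ c ∈ R, κR ≤ κ c) → (∑ c ∈ R, κ c * KK G x c) ≤ r →
    (∀ x y, S x y = S y x) → (∀ h, 0 ≤ qf S h) → (∀ x ∈ R, S x x ≤ S0) → 0 ≤ S0 →
    (∀ u : X → ℝ, (∀ y, y ∉ R → u y = 0) → qf (KK G) u ≤ a * ∑ y, u y ^ 2 + qf S u) →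
      ∑ y ∈ R, ∑ c ∈ b, KK G x y * KK G x c * KK G c y ≤ a * LaR G R x + S0 * (r / κR) ^ 2

/-- YNB: the noise of `B = G ∘ G` restricted to `R`. Proof: `(dB c v)_x = - 2 G_xc m_xc`,
`m_xc = ∑_{y ∈ R} G_xy G_cy v_y`. `∑_{c ∈ b} |m_xc|² ≤ (1/κv) ∑ κ_c |m_xc|² ≤ (1/κv) ∑_{y ∈ R} K_xy |v_y|² / κ_y` (`hn` with
`G_xy v_y / κ_y`), `|m_xc|² ≤ (∑_{y ∈ R} K_cy) (∑_{y ∈ R} K_xy |v_y|²) ≤ (r/κR) ∑ K_xy |v_y|²`; so
`∑_{c ∈ b} K_xc |m_xc|² ≤ Λ^{1/2} (∑_c |m_xc|⁴)^{1/2} ≤ (Λ r / (κv κR²))^{1/2} ∑_{y ∈ R} K_xy |v_y|²`, and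
`∑_{x ∈ R} K_xy ≤ r/κR`. The adjoint: `dB c` is symmetric. -/
def YnbStmt : Prop :=
  ∀ (X : Type) [Fintype X] [DecidableEq X] (G : Matrix X X ℂ) (κ : X → ℝ)
    (b R : Finset X) (κv κR Λ r : ℝ), Net G κ → 0 < κv → 0 < κR → 0 ≤ Λ → 0 ≤ r →
    (∀ c ∈ b, κv ≤ κ c) → (∀ c ∈ R, κR ≤ κ c) →
    (∀ x ∈ R, ∑ c ∈ b, KK G x c ^ 2 ≤ Λ) → (∀ x ∈ R ∪ b, ∑ y ∈ R, κ y * KK G x y ≤ r) →
    ∀ v : X → ℂ, (∀ y, y ∉ R → v y = 0) →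
      ∑ c ∈ b, ∑ x ∈ R, ‖(dB G c *ᵥ v) x‖ ^ 2 ≤
        4 * Real.sqrt (Λ * r / (κv * κR ^ 2)) * (r / κR) * ∑ y, ‖v y‖ ^ 2 ∧
      ∑ c ∈ b, ∑ x ∈ R, ‖((dB G c)ᴴ *ᵥ v) x‖ ^ 2 ≤
        4 * Real.sqrt (Λ * r / (κv * κR ^ 2)) * (r / κR) * ∑ y, ‖v y‖ ^ 2

end Pool.Agent.AFJ
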