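import Pool.Agent.LE.DefsQF

/-!
# One block update of the flow: definitions (block D3 of AND2B, MP_1906c1_mp)

`X` is a finite set of sites, `H` a real symmetric matrix (hopping plus the potential applied so far),
`s x` the clock of the site `x` (`0` if `x` is dead), `mb x` the gauge. In a block update only the sites
of `b` run: at the time `t` they carry a fresh Gaussian potential of variance `t` and the clock
`s x - t`. `κ x = η + (clock) * Im mb x` is the absorption at `x`. The coordinates of the noise are the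
elements of `b`. Jets (`HJ`, `HM`, `LL`) are those of `Pool.Agent.LE.QF`.
-/

set_option autoImplicit false

open scoped BigOperators Matrix

noncomputable section

namespace Pool.Agent.AFJ

open Pool.Agent.LE.QF

variable {X : Type} [Fintype X] [DecidableEq X]

/-- the indicator of a set -/
def ind (b : Finset X) (x : X) : ℝ := if x ∈ b then 1 else 0

/-- the gauge error on the running block -/
def mub (G : Matrix X X ℂ) (mb : X → ℂ) (b : Finset X) (x : X) : ℂ :=
  if x ∈ b then G x x - mb x else 0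

/-- the conductances `κ_x |G_xy|² κ_y` between the nodes `A` -/
def cd (G : Matrix X X ℂ) (κ : X → ℝ) (A : Finset X) : Matrix X X ℝ :=
  fun x y => if x ∈ A ∧ y ∈ A then κ x * κ y * KK G x y else 0

/-- the Dirichlet form of the network: `qf (EE G κ A) f = (1/2) ∑_{x, y ∈ A} κ_x K_xy κ_y (f_x - f_y)²` -/
def EE (G : Matrix X X ℂ) (κ : X → ℝ) (A : Finset X) : Matrix X X ℝ := Dl (cd G κ A)

/-- the derivative of the conductances in the direction of the potential at `c` -/
def cdc (G : Matrix X X ℂ) (κ : X → ℝ) (A : Finset X) (c : X) : Matrix X X ℝ :=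
  fun x y => if x ∈ A ∧ y ∈ A then κ x * κ y * dK G c x y else 0

/-- the derivative of the form -/
def Ec (G : Matrix X X ℂ) (κ : X → ℝ) (A : Finset X) (c : X) : Matrix X X ℝ := Dl (cdc G κ A c)

/-- the total absorption in `A` of the waves emitted at `x` -/
def rho (G : Matrix X X ℂ) (κ : X → ℝ) (A : Finset X) (x : X) : ℝ := ∑ y ∈ A, κ y * KK G x y

/-- the conductances of the error term in the drift of `EE` -/
def ee (G : Matrix X X ℂ) (κ : X → ℝ) (g : X → ℝ) (μ : X → ℂ) (A b : Finset X) : Matrix X X ℝ :=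
  fun x y => if x ∈ A ∧ y ∈ A then
    (ind b x * (rho G κ A x - g x) * κ y + κ x * (rho G κ A y - g y) * ind b y) * KK G x y +
      κ x * κ y * EK G μ x y else 0

/-- `∑_{y ∈ R} |G_xy|⁴` -/
def LaR (G : Matrix X X ℂ) (R : Finset X) (x : X) : ℝ := ∑ y ∈ R, KK G x y ^ 2

/-- `β_xc(f) = ∑_{y ∈ A} κ_y conj(G_xy) G_cy (f_x - f_y)` -/
def bet (G : Matrix X X ℂ) (κ : X → ℝ) (A : Finset X) (f : X → ℝ) (x c : X) : ℂ :=
  ∑ y ∈ A, (κ y : ℂ) * (starRingEnd ℂ) (G x y) * G c y * ((f x - f y : ℝ) : ℂ)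

/-- `D_x(f) = ∑_{y ∈ A} κ_y |G_xy|² (f_x - f_y)²` -/
def DD (G : Matrix X X ℂ) (κ : X → ℝ) (A : Finset X) (f : X → ℝ) (x : X) : ℝ :=
  ∑ y ∈ A, κ y * KK G x y * (f x - f y) ^ 2

/-- a complex symmetric `G` with positive absorption `κ`: Ward identity and norm bound -/
structure Net (G : Matrix X X ℂ) (κ : X → ℝ) : Prop where
  hs : ∀ x y, G x y = G y x
  hκ : ∀ x, 0 < κ x
  hw : ∀ x z, ∑ y, (κ y : ℂ) * (G x y * (starRingEnd ℂ) (G z y)) = ((G x z).im : ℂ)
  hn : ∀ v : X → ℂ, ∑ x, κ x * ‖∑ y, G x y * ((κ y : ℂ) * v y)‖ ^ 2 ≤ ∑ x, κ x * ‖v x‖ ^ 2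

/-- `Gm` and `kf` have at `q` the jets of the resolvent and of the absorption of a block update -/
structure BJ {b : Finset X} (q : ℝ × (b → ℝ)) (Gm : ℝ × (b → ℝ) → Matrix X X ℂ)
    (kf : ℝ → X → ℝ) (G : Matrix X X ℂ) (κ : X → ℝ) (mb : X → ℂ) : Prop where
  hG : HM Gm q G (fun c => gG G (c : X)) (GD G (mub G mb b))
  hs : ∀ x y, G x y = G y x
  hk : ∀ x, ContDiffAt ℝ 2 (fun t => kf t x) q.1 ∧ kf q.1 x = κ x ∧
    deriv (fun t => kf t x) q.1 = -(ind b x * (mb x).im)

/-- the data of a block update -/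
structure Blk (X : Type) [Fintype X] [DecidableEq X] where
  H : Matrix X X ℝ
  E : ℝ
  η : ℝ
  s : X → ℝ
  mb : X → ℂ
  b : Finset X

namespace Blk

variable (D : Blk X)

/-- the absorption at the time `t` -/
def kp (t : ℝ) (x : X) : ℝ := D.η + (D.s x - if x ∈ D.b then t else 0) * (D.mb x).im

/-- the diagonal: fresh potential, self-energy, energy -/
def pt (r : ℝ × (D.b → ℝ)) (x : X) : ℂ :=
  (if h : x ∈ D.b then ((r.2 ⟨x, h⟩ : ℝ) : ℂ) + (r.1 : ℂ) * D.mb x else 0) -
    (D.s x : ℂ) * D.mb x - ⟨D.E, D.η⟩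

/-- the resolvent at the time `r.1` with the fresh potential `r.2` -/
def G (r : ℝ × (D.b → ℝ)) : Matrix X X ℂ :=
  (D.H.map (fun a => (a : ℂ)) + Matrix.diagonal (D.pt r))⁻¹

end Blk

end Pool.Agent.AFJ
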